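import Pool.Agent.Helper28.CQ.Stmts

set_option autoImplicit false

/-!
# DIC: dichotomy for coarse embeddings of `Z^m` and walls
-/

namespace CQ

open Relation

theorem dic_dI_comm {m : ℕ} (x y : V m) : dI x y = dI y x := by
  unfold dI
  congr 1
  funext i
  rw [← Int.natAbs_neg]
  congr 1
  ring

/-- moving one step towards a point -/
theorem dic_step {m : ℕ} (R : ℕ) (x y : V m) (h : dI x y ≤ R + 1) :
    ∃ z, dI x z ≤ R ∧ dI z y ≤ 1 := by
  rw [dI_le] at h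
  refine ⟨fun i => if x i < y i then y i - 1 else if y i < x i then y i + 1 else y i, ?_, ?_⟩
  · rw [dI_le]
    intro i
    have := h i
    show (x i - (if x i < y i then y i - 1 else if y i < x i then y i + 1 else y i)).natAbs ≤ R
    split_ifs <;> omega
  · rw [dI_le]
    intro i
    show ((if x i < y i then y i - 1 else if y i < x i then y i + 1 else y i) - y i).natAbs ≤ 1
    split_ifs <;> omega

theorem dic_symm {G : Type*} [Group G] {ℓ : G → ℕ} (h : IsNorm ℓ) (x y : G) :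
    nd ℓ x y = nd ℓ y x := by
  unfold nd
  rw [← h.inv]
  simp

theorem dic_tri {G : Type*} [Group G] {ℓ : G → ℕ} (h : IsNorm ℓ) (x y z : G) :
    nd ℓ x z ≤ nd ℓ x y + nd ℓ y z := by
  unfold nd
  have := h.mul_le (x⁻¹ * y) (y⁻¹ * z)
  simpa [mul_assoc] using this

theorem dic_self {G : Type*} [Group G] {ℓ : G → ℕ} (h : IsNorm ℓ) (x : G) :
    nd ℓ x x = 0 := by
  unfold nd
  rw [h.eq_zero]
  simp

theorem dic_lip {G : Type*} [Group G] {ℓ : G → ℕ} (h : IsNorm ℓ) {m : ℕ} {K : ℕ} {ρ : ℕ → ℕ}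
    {σ : V m → G} (hσ : EMap m (nd ℓ) K ρ σ) (R : ℕ) :
    ∀ x y, dI x y ≤ R → nd ℓ (σ x) (σ y) ≤ K * R := by
  induction R with
  | zero =>
    intro x y hxy
    have : x = y := by
      funext i
      have := dI_le.1 hxy i
      omega
    rw [this, dic_self h]
    exact Nat.zero_le _
  | succ R ih =>
    intro x y hxy
    obtain ⟨z, h1, h2⟩ := dic_step R x y hxy
    have h3 := ih x z h1
    have h4 := hσ.1 z y h2
    have h5 := dic_tri h (σ x) (σ z) (σ y)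
    rw [Nat.mul_succ]
    omega

section

variable {n : ℕ} [NeZero n] {F : Type} [Group F] {ℓ : F → ℕ}

/-- a wall is contained in a coset of `Lam i` -/
theorem dic_wall {P : GP n F ℓ} (W : Walls P) (J : TW n F) (h : F) :
    ∃ z : CP n F, Wall P J h ⊆ {w | z⁻¹ * w ∈ Lam J.1} := by
  by_cases hne : (Wall P J h).Nonempty
  · obtain ⟨z, hz⟩ := hne
    refine ⟨z, fun w hw => ?_⟩
    have hJ : tw J.1 z = J := hz.1
    have h1 : z⁻¹ * w ∈ St (n := n) (F := F) J.1 := by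
      have h2 : tw J.1 z = tw J.1 w := hz.1.trans hw.1.symm
      exact ((W.tw_eq J.1 J.1 z w).1 h2).2
    obtain ⟨a, u, hu, hau⟩ := (W.St_mem J.1 _).1 h1
    have h3 := W.pi_tw J.1 z z w
    rw [hJ, hz.2, hw.2, inv_mul_cancel, inv_mul_cancel, P.pr_one, inv_one, one_mul, hau,
      P.pr_ι_mul] at h3
    have h4 : P.pr J.1 u = 1 := by
      have := P.pr_Lam_mul J.1 u 1 hu
      rwa [mul_one, P.pr_one] at this
    rw [h4, mul_one] at h3
    rw [h3, map_one, one_mul] at hau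
    show z⁻¹ * w ∈ Lam J.1
    rw [hau]
    exact hu
  · refine ⟨1, fun w hw => ?_⟩
    exact absurd ⟨w, hw⟩ hne

/-- the set of parameters whose images are near a wall is colourable, uniformly -/
theorem dic_col {P : GP n F ℓ} (W : Walls P) {m c : ℕ} {Δ : ℕ → ℕ}
    (hΔ : ∀ (i : ZMod n) (z : CP n F), Col c (nd (gN ℓ)) {w | z⁻¹ * w ∈ Lam i} Δ)
    {K : ℕ} {ρ : ℕ → ℕ} {σ : V m → CP n F} (hσ : EMap m (nd (gN ℓ)) K ρ σ) (T : ℕ)
    (J : TW n F) (h : F) :
    Col c dI {x : V m | ∃ e ∈ Wall P J h, nd (gN ℓ) (σ x) e ≤ T}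
      (fun R => ρ (Δ (K * R + 2 * T) + 2 * T)) := by
  classical
  obtain ⟨z, hz⟩ := dic_wall W J h
  intro R
  obtain ⟨col, hcol⟩ := hΔ J.1 z (K * R + 2 * T)
  set A := {x : V m | ∃ e ∈ Wall P J h, nd (gN ℓ) (σ x) e ≤ T} with hA
  let e : V m → CP n F := fun x => if hx : x ∈ A then hx.choose else 1
  have he : ∀ x ∈ A, e x ∈ Wall P J h ∧ nd (gN ℓ) (σ x) (e x) ≤ T := by
    intro x hx
    have h1 : e x = Exists.choose hx := by
      show (if hx : x ∈ A then hx.choose else 1) = _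
      rw [dif_pos hx]
    rw [h1]
    exact Exists.choose_spec hx
  refine ⟨fun x => col (e x), fun x y hx hxy => ?_⟩
  -- transport the chain
  have key : ReflTransGen (fun a b => a ∈ {w | z⁻¹ * w ∈ Lam J.1} ∧ b ∈ {w | z⁻¹ * w ∈ Lam J.1} ∧
      nd (gN ℓ) a b ≤ K * R + 2 * T ∧ col a = col b) (e x) (e y) ∧ y ∈ A := by
    induction hxy with
    | refl => exact ⟨ReflTransGen.refl, hx⟩
    | tail _ hbc ih =>
      rename_i b c' _
      obtain ⟨hb, hc, hd, hcc⟩ := hbc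
      refine ⟨ih.1.tail ⟨hz (he b hb).1, hz (he c' hc).1, ?_, hcc⟩, hc⟩
      have h1 := dic_lip W.norm hσ R b c' hd
      have h2 := dic_tri W.norm (e b) (σ b) (e c')
      have h3 := dic_tri W.norm (σ b) (σ c') (e c')
      have h4 := (he b hb).2
      have h5 := (he c' hc).2
      rw [dic_symm W.norm (e b) (σ b)] at h2
      omega
  have h1 := hcol (e x) (e y) (hz (he x hx).1) key.1
  apply hσ.2
  have h2 := dic_tri W.norm (σ x) (e x) (σ y)
  have h3 := dic_tri W.norm (e x) (e y) (σ y)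
  have h4 := (he x hx).2
  have h5 := (he y key.2).2
  rw [dic_symm W.norm (e y) (σ y)] at h3
  omega

end

theorem mod_DEEP (hDD : S_DD) (hLAM : S_LAMCOL) (hW : S_WALLS) : S_DEEP := by
  intro n _ hn F _ ℓ hℓ P m k ΔF hkm hcolF K ρ σ hσ r J J' h h'
  have W := hW n hn F ℓ hℓ P
  obtain ⟨Δ, hΔ⟩ := hLAM n hn F ℓ k ΔF hℓ hcolF
  have c1 := dic_col W hΔ hσ r J h
  have c2 := dic_col W hΔ hσ r J' h'
  obtain ⟨r2, hr2⟩ := hDD m (k + 2) (fun R => ρ (Δ (K * R + 2 * r) + 2 * r)) 0 (by omega)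
  obtain ⟨r1, hr1⟩ := hDD m (k + 2) (fun R => ρ (Δ (K * R + 2 * r) + 2 * r)) r2 (by omega)
  obtain ⟨y, hy1, hy2⟩ := hr1 _ c1 0
  obtain ⟨x, hx1, hx2⟩ := hr2 _ c2 y
  refine ⟨x, fun e he => ?_, fun e he => ?_⟩
  · by_contra hcon
    exact hy2 x hx1 ⟨e, he, not_lt.1 hcon⟩
  · by_contra hcon
    refine hx2 x ?_ ⟨e, he, not_lt.1 hcon⟩
    rw [dI_le]; intro i; simp

theorem mod_DIC (hDD : S_DD) (hNS : S_NS) (hLAM : S_LAMCOL) (hW : S_WALLS) : S_DIC := by
  intro n _ hn F _ ℓ hℓ P m k ΔF hkm hcolF K ρ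
  have W := hW n hn F ℓ hℓ P
  obtain ⟨Δ, hΔ⟩ := hLAM n hn F ℓ k ΔF hℓ hcolF
  obtain ⟨D0, hD0⟩ := hNS m (k + 2) (fun R => ρ (Δ (K * R + 2 * K) + 2 * K)) (by omega)
  refine ⟨K + K * D0, fun σ hσ => ⟨fun J h => ?_, fun J J' h h' => ?_⟩⟩
  · by_contra hcon
    push Not at hcon
    obtain ⟨⟨x, hx, hxD⟩, ⟨y, hy, hyD⟩⟩ := hcon
    have deep : ∀ x, (∀ e ∈ Wall P J h, K + K * D0 < nd (gN ℓ) (σ x) e) → ∀ w, dI x w ≤ D0 →
        w ∉ {x : V m | ∃ e ∈ Wall P J h, nd (gN ℓ) (σ x) e ≤ K} := by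
      rintro x hx w hw ⟨e, he, hed⟩
      have h1 := dic_lip W.norm hσ D0 x w hw
      have h2 := dic_tri W.norm (σ x) (σ w) e
      have h3 := hx e he
      omega
    have := hD0 _ (dic_col W hΔ hσ K J h) (fun x => J.pi P (σ x) = h) (by
      intro a b hab ha hb
      left
      have ha' : J.pi P (σ a) = h := ha
      have hb' : J.pi P (σ b) ≠ h := hb
      obtain ⟨w, hw1, hw2, hw3⟩ := W.cross_geo J (σ a) (σ b) (by rw [ha']; exact fun h => hb' h.symm)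
      refine ⟨w, ⟨hw1, hw2.trans ha'⟩, ?_⟩
      have h1 : nd (gN ℓ) (σ a) (σ b) ≤ K := hσ.1 a b hab
      unfold nd at h1 ⊢
      omega) x y (deep x hxD) (deep y hyD) hx
    exact hy this
  · exact mod_DEEP hDD hLAM hW n hn F ℓ hℓ P m k ΔF hkm hcolF K ρ σ hσ (K + K * D0) J J' h h'

end CQ
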