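import Pool.Agent.Helper63.CQ.Core

set_option autoImplicit false

/-!
# NOBIJ: no bilipschitz bijection `L d 1 ≃ L d 2`
-/

namespace CQ
namespace NB

open Relation

variable {d k : ℕ}

/-- the element `(c, p, j)` -/
noncomputable def e (c : Cf d) (p : V d) (j : ZMod k) : L d k :=
  ⟨fun q => c q, p, j, c.hasFiniteSupport⟩

theorem nd_bdd [NeZero k] (F : LFacts d k) (r : ℕ) : ∃ B, ∀ a b : L d k, dI a.pos b.pos ≤ r →
    (∀ q, r < dI q a.pos → a.lamp q = b.lamp q) → nd (LN d k) a b ≤ B := by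
  obtain ⟨B, hB⟩ := F.bdd r
  refine ⟨B, fun a b h1 h2 => hB _ ?_ ?_⟩
  · rw [dI_le] at h1 ⊢
    intro i
    have := h1 i
    simp only [L.mul_pos, L.inv_pos, Pi.add_apply, Pi.neg_apply, Pi.zero_apply, sub_zero]
    omega
  · intro q hq
    simp only [L.mul_lamp, L.inv_lamp, L.inv_pos, sub_neg_eq_add]
    rw [h2 (q + a.pos)]
    · exact z2 _
    · have : dI (q + a.pos) a.pos = dI q 0 := by
        unfold dI
        congr 1
        funext i
        simp
      omega

theorem leaf (hLEAF : S_LEAF) {k k' : ℕ} [NeZero k] [NeZero k'] (hd : 2 ≤ d)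
    (F : LFacts d k) (f : L d k → L d k')
    (K : ℕ) (h1 : ∀ x y, nd (LN d k') (f x) (f y) ≤ K * nd (LN d k) x y)
    (h2 : ∀ x y, nd (LN d k) x y ≤ K * nd (LN d k') (f x) (f y)) :
    ∃ C, ∀ (c : Cf d) (j : ZMod k), ∃ a : Cf d, ∀ p q, C < dI q (f (e c p j)).pos →
      (f (e c p j)).lamp q = a q := by
  obtain ⟨B, hB⟩ := nd_bdd F 1
  obtain ⟨C, hC⟩ := hLEAF d k' d 1 Unit (fun _ _ => 0) (fun _ => 0) hd (fun _ => rfl)
    (fun _ _ => rfl) (fun _ _ _ => le_rfl)
    (fun R => ⟨fun _ => 0, fun x y _ _ => le_rfl⟩) (K * B) (fun S => K * S)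
  refine ⟨C, fun c j => ?_⟩
  obtain ⟨lam, hlam, hC2⟩ := hC (fun p => (f (e c p j), ())) (by
    constructor
    · intro x y hxy
      show nd (LN d k') (f (e c x j)) (f (e c y j)) + 0 ≤ K * B
      rw [add_zero]
      refine (h1 _ _).trans (Nat.mul_le_mul_left K (hB _ _ ?_ ?_))
      · exact hxy
      · intro q _; rfl
    · intro S x y hS
      have h3 : nd (LN d k') (f (e c x j)) (f (e c y j)) + 0 ≤ S := hS
      rw [add_zero] at h3
      have h4 := (h2 (e c x j) (e c y j)).trans (Nat.mul_le_mul_left K h3)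
      exact (F.near (K * S) _ _ h4).1)
  refine ⟨Finsupp.ofSupportFinite lam hlam, fun p q hq => ?_⟩
  exact hC2 p q hq

theorem exists_far (hd : 1 ≤ d) (q : V d) (r : ℕ) : ∃ p : V d, r < dI q p := by
  refine ⟨fun i => q i + (r + 1), ?_⟩
  by_contra hcon
  have := dI_le.1 (not_lt.1 hcon) ⟨0, hd⟩
  have h2 : (q ⟨0, hd⟩ - (q ⟨0, hd⟩ + ((r : ℤ) + 1))).natAbs = r + 1 := by omega
  have h3 : (q ⟨0, hd⟩ - (q ⟨0, hd⟩ + ((r : ℤ) + 1))).natAbs ≤ r := this
  omega

/-- the constants and the data for a bilipschitz bijection -/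
theorem exists_dat (hLP : S_LP) (hLEAF : S_LEAF) (hd : 2 ≤ d) (β : L d 1 ≃ L d 2) (K : ℕ)
    (hβ : ∀ x y, nd (LN d 2) (β x) (β y) ≤ K * nd (LN d 1) x y ∧
      nd (LN d 1) x y ≤ K * nd (LN d 2) (β x) (β y)) :
    ∃ (D : Dat d) (C : ℕ), C ≤ D.C1 ∧ (∀ c q, D.ps c q = (β (e c q 0)).pos) ∧
      ∀ c p q, C < dI q (β (e c p 0)).pos → (β (e c p 0)).lamp q = D.α c q := by
  have F1 : LFacts d 1 := hLP d 1
  have F2 : LFacts d 2 := hLP d 2
  obtain ⟨C, hC⟩ := leaf hLEAF hd F1 β K (fun x y => (hβ x y).1) (fun x y => (hβ x y).2)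
  obtain ⟨C', hC'⟩ := leaf hLEAF hd F2 β.symm K
    (fun x y => by simpa using (hβ (β.symm x) (β.symm y)).2)
    (fun x y => by simpa using (hβ (β.symm x) (β.symm y)).1)
  choose α₀ hα₀ using hC
  choose α₁ hα₁ using hC'
  let α : Cf d → Cf d := fun c => α₀ c 0
  have hα : ∀ c p q, C < dI q (β (e c p 0)).pos → (β (e c p 0)).lamp q = α c q :=
    fun c p q h => hα₀ c 0 p q h
  obtain ⟨B0, hB0⟩ := nd_bdd F1 0
  -- toggling at the cursor
  have tog : ∀ c q, nd (LN d 2) (β (e c q 0)) (β (e (c + δ q) q 0)) ≤ K * B0 := by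
    intro c q
    refine (hβ _ _).1.trans (Nat.mul_le_mul_left K (hB0 _ _ ?_ ?_))
    · show dI q q ≤ 0
      rw [dI_self']
    · intro x hx
      show c x = (c + δ q) x
      have hne : x ≠ q := by
        rintro rfl
        have hx' : 0 < dI x x := hx
        rw [dI_self'] at hx'
        exact absurd hx' (lt_irrefl 0)
      rw [Finsupp.add_apply, Finsupp.single_apply, if_neg (fun h => hne h.symm), add_zero]
  have near : ∀ c q, dI (β (e c q 0)).pos (β (e (c + δ q) q 0)).pos ≤ K * B0 :=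
    fun c q => (F2.near _ _ _ (tog c q)).1
  obtain ⟨BC, hBC⟩ := nd_bdd F2 C
  have inj1 : ∀ c, α₁ (α c) 0 = c := by
    intro c
    ext q
    obtain ⟨p, hp⟩ := exists_far (by omega) q (K * BC + C')
    have h1 := hBC (β (e c p 0)) (e (α c) (β (e c p 0)).pos 0) (by
      show dI (β (e c p 0)).pos (β (e c p 0)).pos ≤ C
      rw [dI_self']; exact Nat.zero_le _) (fun x hx => hα c p x hx)
    have h2 : nd (LN d 1) (e c p 0) (β.symm (e (α c) (β (e c p 0)).pos 0)) ≤ K * BC := by
      have := (hβ (e c p 0) (β.symm (e (α c) (β (e c p 0)).pos 0))).2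
      rw [Equiv.apply_symm_apply] at this
      exact this.trans (Nat.mul_le_mul_left K h1)
    obtain ⟨h3, h4⟩ := F1.near _ _ _ h2
    have h3' : dI p (β.symm (e (α c) (β (e c p 0)).pos 0)).pos ≤ K * BC := h3
    have h5 := h4 q (by show K * BC < dI q p; omega)
    have h6 := hα₁ (α c) 0 (β (e c p 0)).pos q (by
      have t := dI_tri' q (β.symm (e (α c) (β (e c p 0)).pos 0)).pos p
      rw [dI_comm' (β.symm (e (α c) (β (e c p 0)).pos 0)).pos p] at t
      omega)
    rw [← h6, ← h5]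
    rfl
  refine ⟨⟨α, fun c q => (β (e c q 0)).pos, C + K * B0, K * B0, ?_, ?_, near, ?_, ?_⟩, C,
    Nat.le_add_right _ _, fun _ _ => rfl, hα⟩
  · intro a b hab
    rw [← inj1 a, ← inj1 b, hab]
  · intro c q x hx
    have hn := near c q
    have h1 : C < dI x (β (e (c + δ q) q 0)).pos := by
      have t := dI_tri' x (β (e (c + δ q) q 0)).pos (β (e c q 0)).pos
      rw [dI_comm' (β (e (c + δ q) q 0)).pos] at t
      omega
    rw [← hα (c + δ q) q x h1, ← hα c q x (by omega)]
    exact ((F2.near _ _ _ (tog c q)).2 x (by omega)).symm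
  · intro r
    obtain ⟨B, hB⟩ := nd_bdd F2 (C + r)
    refine ⟨K * B, fun c q z hqz => ?_⟩
    by_contra hcon
    have h1 := hB (β (e c q 0)) (β (e c z 0)) (by omega) (by
      intro x hx
      rw [hα c q x (by omega), hα c z x (by
        have t := dI_tri' x (β (e c z 0)).pos (β (e c q 0)).pos
        rw [dI_comm' (β (e c z 0)).pos] at t
        omega)])
    have h2 := (hβ (e c q 0) (e c z 0)).2.trans (Nat.mul_le_mul_left K h1)
    have h3 : dI q z ≤ K * B := (F1.near _ _ _ h2).1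
    omega
  · intro r
    obtain ⟨B, hB⟩ := nd_bdd F1 r
    refine ⟨K * B, fun c c' q h => ?_⟩
    have h1 := hB (e c q 0) (e c' q 0) (by
      show dI q q ≤ r
      rw [dI_self']; exact Nat.zero_le _) (fun x hx => h x hx)
    exact (F2.near _ _ _ ((hβ _ _).1.trans (Nat.mul_le_mul_left K h1))).1

/-- the cube `[a, b)^d` -/
noncomputable def cube (d : ℕ) (a b : ℤ) : Finset (V d) :=
  Fintype.piFinset fun _ => Finset.Ico a b

theorem mem_cube {a b : ℤ} {x : V d} : x ∈ cube d a b ↔ ∀ i, a ≤ x i ∧ x i < b := by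
  simp [cube, Fintype.mem_piFinset]

theorem card_cube (a b : ℤ) : (cube d a b).card = (b - a).toNat ^ d := by
  simp [cube, Fintype.card_piFinset]

theorem numeric (d C : ℕ) : ∃ N : ℕ, N ^ d < 2 * (N - 2 * C) ^ d ∧ 2 * C ≤ N := by
  refine ⟨4 * C * d + 2 * C + 1, ?_, by omega⟩
  set N := 4 * C * d + 2 * C + 1 with hN
  have hNpos : (0 : ℝ) < N := by rw [hN]; positivity
  have h1 : ((N - 2 * C : ℕ) : ℝ) = (N : ℝ) * (1 + -(2 * C / N : ℝ)) := by
    rw [Nat.cast_sub (by omega)]
    push_cast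
    field_simp
    ring
  have h2 : (2 * C / N : ℝ) ≤ 1 := by
    rw [div_le_one hNpos]
    have : 2 * C ≤ N := by omega
    exact_mod_cast this
  have h3 : (1 : ℝ) + d * -(2 * C / N) ≤ (1 + -(2 * C / N : ℝ)) ^ d :=
    one_add_mul_le_pow (by linarith) d
  have h4 : (1 : ℝ) / 2 < 1 + d * -(2 * C / N) := by
    have : (d : ℝ) * (2 * C / N) < 1 / 2 := by
      rw [← mul_div_assoc, div_lt_iff₀ hNpos]
      have h5 : 4 * C * d < N := by omega
      have h6 : ((4 * C * d : ℕ) : ℝ) < N := by exact_mod_cast h5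
      push_cast at h6
      nlinarith
    linarith
  have h5 : ((N ^ d : ℕ) : ℝ) < ((2 * (N - 2 * C) ^ d : ℕ) : ℝ) := by
    push_cast [h1]
    rw [mul_pow]
    have h6 : (0 : ℝ) < (N : ℝ) ^ d := by positivity
    nlinarith
  exact_mod_cast h5

theorem mod_NOBIJ (hLP : S_LP) (hLEAF : S_LEAF) : S_NOBIJ := by
  classical
  rintro d hd ⟨β, K, hβ⟩
  obtain ⟨D, C, hC1, hps, hα⟩ := exists_dat hLP hLEAF hd β K hβ
  obtain ⟨C2, hC2⟩ := D.exists_C2
  obtain ⟨N, hN, hN2⟩ := numeric d (D.C1 + 2 * C2)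
  set C4 := D.C1 + 2 * C2 with hC4
  set S := cube d 0 N with hS
  set S' := cube d C4 (N - C4) with hS'
  have hSS : ∀ p ∈ S', ∀ x, dI x p ≤ C4 → x ∈ S := by
    intro p hp x hx
    rw [hS', mem_cube] at hp
    rw [hS, mem_cube]
    intro i
    have h1 := hp i
    have h2 := dI_le.1 hx i
    omega
  -- the parametrisation
  let T := (S → ZMod 2) × S' × ZMod 2
  let ext : (S → ZMod 2) → Cf d := fun f => ∑ s : S, Finsupp.single (s : V d) (f s)
  have ext_mem : ∀ (f : S → ZMod 2) (s : S), ext f s = f s := by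
    intro f s
    show (∑ s' : S, Finsupp.single (s' : V d) (f s') : Cf d) s = f s
    rw [Finsupp.finsetSum_apply, Finset.sum_eq_single s]
    · simp
    · intro b _ hb
      rw [Finsupp.single_apply, if_neg]
      intro h
      exact hb (Subtype.ext h)
    · intro h; exact absurd (Finset.mem_univ s) h
  have ext_not : ∀ (f : S → ZMod 2) (x : V d), x ∉ S → ext f x = 0 := by
    intro f x hx
    show (∑ s' : S, Finsupp.single (s' : V d) (f s') : Cf d) x = 0
    rw [Finsupp.finsetSum_apply, Finset.sum_eq_zero]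
    intro s _
    rw [Finsupp.single_apply, if_neg]
    rintro rfl
    exact hx s.2
  let y : T → L d 2 := fun t => e (D.α 0 + ext t.1) t.2.1 t.2.2
  let x : T → L d 1 := fun t => β.symm (y t)
  let cc : T → Cf d := fun t => Finsupp.ofSupportFinite (x t).lamp (x t).fin
  have hx : ∀ t, x t = e (cc t) (x t).pos 0 := by
    intro t
    apply L.ext'
    · intro q; rfl
    · rfl
    · exact Subsingleton.elim _ _
  have hβx : ∀ t, β (e (cc t) (x t).pos 0) = y t := by
    intro t
    rw [← hx t]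
    exact β.apply_symm_apply _
  have hpos : ∀ t : T, D.ps (cc t) (x t).pos = (t.2.1 : V d) := by
    intro t
    rw [hps, hβx]
    rfl
  have hoff : ∀ (t : T) (z : V d), z ∉ S → D.α (cc t) z = D.α 0 z := by
    intro t z hz
    have h1 : C < dI z (β (e (cc t) (x t).pos 0)).pos := by
      by_contra hcon
      apply hz
      apply hSS _ t.2.1.2
      rw [hβx t] at hcon
      have : dI z (t.2.1 : V d) ≤ C := not_lt.1 hcon
      omega
    rw [← hα _ _ _ h1, hβx t]
    show (D.α 0 + ext t.1) z = D.α 0 z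
    rw [Finsupp.add_apply, ext_not _ _ hz, add_zero]
  let P : Finset (V d) := Finset.univ.image fun t : T => (x t).pos
  have hP : P.card ≤ S.card := by
    apply D.card_le C2 hC2 S P
    intro q hq w hw
    obtain ⟨t, _, rfl⟩ := Finset.mem_image.1 hq
    apply hSS _ t.2.1.2
    have h1 := hC2 (cc t) (x t).pos
    rw [hpos] at h1
    have t1 := dI_tri' w (D.ps 0 (x t).pos) (t.2.1 : V d)
    rw [dI_comm' (D.ps 0 (x t).pos)] at t1
    omega
  let Φ : T → (S → ZMod 2) × P := fun t =>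
    (fun s => D.α (cc t) s, ⟨(x t).pos, Finset.mem_image_of_mem _ (Finset.mem_univ t)⟩)
  have hΦ : Function.Injective Φ := by
    intro t t' htt
    have h1 : ∀ s : S, D.α (cc t) s = D.α (cc t') s := fun s => congrFun (congrArg Prod.fst htt) s
    have h2 : (x t).pos = (x t').pos := congrArg (fun u => (u.2 : V d)) htt
    have h3 : cc t = cc t' := by
      apply D.inj
      ext z
      by_cases hz : z ∈ S
      · exact h1 ⟨z, hz⟩
      · rw [hoff t z hz, hoff t' z hz]
    have h4 : x t = x t' := by rw [hx t, hx t', h2, h3]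
    have h5 : y t = y t' := β.symm.injective h4
    have h6 : (t.2.1 : V d) = t'.2.1 := congrArg L.pos h5
    have h7 : t.2.2 = t'.2.2 := congrArg L.rot h5
    have h8 : t.1 = t'.1 := by
      funext s
      have h9 : (D.α 0 + ext t.1) (s : V d) = (D.α 0 + ext t'.1) (s : V d) :=
        congrFun (congrArg L.lamp h5) s
      rw [Finsupp.add_apply, Finsupp.add_apply, ext_mem, ext_mem] at h9
      exact add_left_cancel h9
    exact Prod.ext h8 (Prod.ext (Subtype.ext h6) h7)
  have hcard := Fintype.card_le_of_injective Φ hΦ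
  rw [Fintype.card_prod, Fintype.card_prod, Fintype.card_prod, Fintype.card_fun, ZMod.card,
    Fintype.card_coe, Fintype.card_coe, Fintype.card_coe] at hcard
  have h1 : S'.card * 2 ≤ P.card := Nat.le_of_mul_le_mul_left hcard (by positivity)
  have h2 : S'.card = (N - 2 * C4) ^ d := by
    rw [hS', card_cube]
    congr 1
    omega
  have h3 : S.card = N ^ d := by
    rw [hS, card_cube]
    congr 1
  rw [h2] at h1
  rw [h3] at hP
  omega

end NB

theorem mod_NOBIJ (hLP : S_LP) (hLEAF : S_LEAF) : S_NOBIJ := NB.mod_NOBIJ hLP hLEAF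

end CQ
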