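import Pool.Agent.Helper28.CQ.Stmts

set_option autoImplicit false

/-!
# NOBIJ: the combinatorial core
-/

namespace CQ
namespace NB

open Relation

variable {d : ℕ}

theorem dI_self' (x : V d) : dI x x = 0 := by
  have : dI x x ≤ 0 := dI_le.2 (by simp)
  omega

theorem dI_comm' (x y : V d) : dI x y = dI y x := by
  unfold dI
  congr 1
  funext i
  rw [← Int.natAbs_neg]
  congr 1
  ring

theorem dI_tri' (x y z : V d) : dI x z ≤ dI x y + dI y z := by
  rw [dI_le]
  intro i
  have h1 : (x i - y i).natAbs ≤ dI x y := dI_le.1 le_rfl i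
  have h2 : (y i - z i).natAbs ≤ dI y z := dI_le.1 le_rfl i
  omega

/-- lamp configurations -/
abbrev Cf (d : ℕ) : Type := V d →₀ ZMod 2

/-- the configuration with one lamp -/
noncomputable abbrev δ (q : V d) : Cf d := Finsupp.single q 1

theorem z2 (a : ZMod 2) : a + a = 0 := CharTwo.add_self_eq_zero a

theorem z2_cases (a : ZMod 2) : a = 0 ∨ a = 1 := by
  revert a; decide

theorem z2_eq_of_add {a b : ZMod 2} (h : a + b = 0) : a = b := by
  revert a b; decide

theorem z2_ne_zero {a : ZMod 2} (h : a ≠ 0) : a = 1 := by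
  revert a; decide

theorem cf_two (c : Cf d) : c + c = 0 := by
  ext q; simp [z2]

/-- the abstract data extracted from the bilipschitz bijection -/
structure Dat (d : ℕ) where
  α : Cf d → Cf d
  ps : Cf d → V d → V d
  C1 : ℕ
  A : ℕ
  inj : Function.Injective α
  supp : ∀ c q x, C1 < dI x (ps c q) → α (c + δ q) x = α c x
  near : ∀ c q, dI (ps c q) (ps (c + δ q) q) ≤ A
  far : ∀ r, ∃ m0, ∀ c q z, m0 < dI q z → r < dI (ps c q) (ps c z)
  bdd : ∀ r, ∃ D, ∀ (c c' : Cf d) (q : V d), (∀ x, r < dI x q → c x = c' x) →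
    dI (ps c q) (ps c' q) ≤ D

namespace Dat

variable (D : Dat d)

/-- `Δ_q(c)` -/
noncomputable def Dl (q : V d) (c : Cf d) : Cf d := D.α (c + δ q) + D.α c

theorem Dl_ne (q : V d) (c : Cf d) : D.Dl q c ≠ 0 := by
  intro h
  have h1 : D.α (c + δ q) = D.α c := by
    ext x
    have h2 := DFunLike.congr_fun h x
    simp only [Dl, Finsupp.add_apply, Finsupp.zero_apply] at h2
    exact z2_eq_of_add h2
  have h3 := D.inj h1
  have h4 : (δ q : Cf d) = 0 := by
    have : c + δ q = c + 0 := by rw [h3, add_zero]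
    exact add_left_cancel this
  have h5 := DFunLike.congr_fun h4 q
  simp at h5

theorem Dl_supp (q : V d) (c : Cf d) (x : V d) (hx : D.Dl q c x ≠ 0) :
    dI x (D.ps c q) ≤ D.C1 := by
  by_contra hcon
  apply hx
  simp only [Dl, Finsupp.add_apply]
  rw [D.supp c q x (by omega)]
  exact z2 _

theorem exists_m0 : ∃ m0, ∀ (c : Cf d) (q z : V d), m0 < dI q z →
    D.Dl q (c + δ z) = D.Dl q c := by
  obtain ⟨m0, hm0⟩ := D.far (2 * D.C1 + 2 * D.A)
  refine ⟨m0, fun c q z hqz => ?_⟩
  have hzq : m0 < dI z q := by rw [dI_comm']; exact hqz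
  ext x
  simp only [Dl, Finsupp.add_apply]
  have e1 : c + δ z + δ q = c + δ q + δ z := by abel
  -- distances
  have a1 := hm0 c q z hqz
  have a2 := hm0 (c + δ q) q z hqz
  have a3 := hm0 (c + δ z) q z hqz
  have a4 := hm0 (c + δ q + δ z) q z hqz
  have b1 := D.near c q
  have b2 := D.near c z
  have b3 := D.near (c + δ z) q
  have b4 := D.near (c + δ q) z
  rw [e1] at b3
  by_cases h1 : dI x (D.ps c q) ≤ D.C1 ∨ dI x (D.ps (c + δ z) q) ≤ D.C1
  · have c1 : D.C1 < dI x (D.ps c z) := by
      rcases h1 with h1 | h1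
      · have t1 := dI_tri' (D.ps c q) x (D.ps c z)
        rw [dI_comm' (D.ps c q) x] at t1
        omega
      · have t1 := dI_tri' (D.ps (c + δ z) q) x (D.ps (c + δ z) z)
        rw [dI_comm' (D.ps (c + δ z) q) x] at t1
        have t2 := dI_tri' x (D.ps c z) (D.ps (c + δ z) z)
        omega
    have c2 : D.C1 < dI x (D.ps (c + δ q) z) := by
      rcases h1 with h1 | h1
      · have t1 := dI_tri' (D.ps (c + δ q) q) x (D.ps (c + δ q) z)
        rw [dI_comm' (D.ps (c + δ q) q) x] at t1
        have t2 := dI_tri' x (D.ps c q) (D.ps (c + δ q) q)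
        omega
      · -- ps (c+δz) q ≈ ps (c+δq+δz) q, ps (c+δq) z ≈ ps (c+δq+δz) z
        have t1 := dI_tri' (D.ps (c + δ q + δ z) q) x (D.ps (c + δ q + δ z) z)
        rw [dI_comm' (D.ps (c + δ q + δ z) q) x] at t1
        have t2 := dI_tri' x (D.ps (c + δ z) q) (D.ps (c + δ q + δ z) q)
        have t3 := dI_tri' x (D.ps (c + δ q) z) (D.ps (c + δ q + δ z) z)
        omega
    have f1 := D.supp c z x c1
    have f2 := D.supp (c + δ q) z x c2
    rw [e1, f1, f2]
  · have h2 : D.C1 < dI x (D.ps c q) ∧ D.C1 < dI x (D.ps (c + δ z) q) := by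
      constructor
      · by_contra h; exact h1 (Or.inl (by omega))
      · by_contra h; exact h1 (Or.inr (by omega))
    have f1 := D.supp c q x h2.1
    have f2 := D.supp (c + δ z) q x h2.2
    rw [f1, f2, z2, z2]

theorem Dl_sum (m0 : ℕ) (hm0 : ∀ (c : Cf d) (q z : V d), m0 < dI q z →
    D.Dl q (c + δ z) = D.Dl q c) (q : V d) (T : Finset (V d)) :
    (∀ z ∈ T, m0 < dI q z) → ∀ c : Cf d, D.Dl q (c + ∑ z ∈ T, δ z) = D.Dl q c := by
  classical
  induction T using Finset.induction_on with
  | empty => intro _ c; simp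
  | insert z T hz ih =>
    intro hT c
    rw [Finset.sum_insert hz, ← add_assoc, ih (fun w hw => hT w (Finset.mem_insert_of_mem hw)),
      hm0 c q z (hT z (Finset.mem_insert_self z T))]

/-- (5): the position is near the position for the empty configuration -/
theorem exists_C2 : ∃ C2, ∀ (c : Cf d) (q : V d), dI (D.ps c q) (D.ps 0 q) ≤ C2 := by
  classical
  obtain ⟨m0, hm0⟩ := D.exists_m0
  obtain ⟨B, hB⟩ := D.bdd m0
  refine ⟨2 * D.C1 + B, fun c q => ?_⟩
  set c0 : Cf d := c.filter (fun x => dI q x ≤ m0) with hc0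
  have hsum : c = c0 + ∑ z ∈ c.support.filter (fun x => m0 < dI q x), δ z := by
    ext x
    rw [Finsupp.add_apply, Finsupp.finsetSum_apply]
    by_cases hx : dI q x ≤ m0
    · rw [hc0, Finsupp.filter_apply, if_pos hx, Finset.sum_eq_zero, add_zero]
      intro z hz
      rw [Finset.mem_filter] at hz
      rw [Finsupp.single_apply, if_neg]
      rintro rfl
      omega
    · rw [hc0, Finsupp.filter_apply, if_neg hx, zero_add]
      by_cases hcx : c x = 0
      · rw [hcx, Finset.sum_eq_zero]
        intro z hz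
        rw [Finset.mem_filter, Finsupp.mem_support_iff] at hz
        rw [Finsupp.single_apply, if_neg]
        rintro rfl
        exact hz.1 hcx
      · rw [Finset.sum_eq_single x]
        · rw [Finsupp.single_apply, if_pos rfl]
          exact z2_ne_zero hcx
        · intro z _ hzx
          rw [Finsupp.single_apply, if_neg hzx]
        · intro hx'
          exfalso
          apply hx'
          rw [Finset.mem_filter, Finsupp.mem_support_iff]
          exact ⟨hcx, by omega⟩
  have h1 : D.Dl q c = D.Dl q c0 := by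
    conv_lhs => rw [hsum]
    apply D.Dl_sum m0 hm0
    intro z hz
    rw [Finset.mem_filter] at hz
    exact hz.2
  obtain ⟨x, hx⟩ : ∃ x, D.Dl q c x ≠ 0 := by
    by_contra hcon
    push Not at hcon
    apply D.Dl_ne q c
    ext x
    simpa using hcon x
  have h2 := D.Dl_supp q c x hx
  have h3 := D.Dl_supp q c0 x (by rw [← h1]; exact hx)
  have h4 := hB c0 0 q (by
    intro x hx
    rw [hc0, Finsupp.filter_apply, if_neg (by rw [dI_comm' q x]; omega)]
    rfl)
  have t1 := dI_tri' (D.ps c q) x (D.ps c0 q)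
  rw [dI_comm' (D.ps c q) x] at t1
  have t2 := dI_tri' (D.ps c q) (D.ps c0 q) (D.ps 0 q)
  omega

/-- toggling lamps in `B` changes `α` only in `S` -/
theorem alpha_supp (C2 : ℕ) (hC2 : ∀ (c : Cf d) (q : V d), dI (D.ps c q) (D.ps 0 q) ≤ C2)
    (S : Finset (V d)) (T : Finset (V d)) :
    (∀ q ∈ T, ∀ x, dI x (D.ps 0 q) ≤ D.C1 + C2 → x ∈ S) → ∀ x, x ∉ S →
    ∀ c, D.α (c + ∑ z ∈ T, δ z) x = D.α c x := by
  classical
  induction T using Finset.induction_on with
  | empty => intro _ x _ c; simp
  | insert z T hz ih =>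
    intro hT x hx c
    rw [Finset.sum_insert hz, ← add_assoc,
      ih (fun w hw => hT w (Finset.mem_insert_of_mem hw)) x hx]
    apply D.supp
    by_contra hcon
    apply hx
    apply hT z (Finset.mem_insert_self z T)
    have t1 := dI_tri' x (D.ps c z) (D.ps 0 z)
    have t2 := hC2 c z
    omega

/-- (6) -/
theorem card_le (C2 : ℕ) (hC2 : ∀ (c : Cf d) (q : V d), dI (D.ps c q) (D.ps 0 q) ≤ C2)
    (S : Finset (V d)) (T : Finset (V d))
    (hT : ∀ q ∈ T, ∀ x, dI x (D.ps 0 q) ≤ D.C1 + C2 → x ∈ S) : T.card ≤ S.card := by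
  classical
  -- subsets of `T` inject into `S → ZMod 2`
  let Φ : Finset (V d) → (S → ZMod 2) := fun U s => D.α (∑ z ∈ U, δ z) s
  have hinj : Set.InjOn Φ (T.powerset : Set (Finset (V d))) := by
    intro U hU W hW hUW
    rw [Finset.mem_coe, Finset.mem_powerset] at hU hW
    have h1 : D.α (∑ z ∈ U, δ z) = D.α (∑ z ∈ W, δ z) := by
      ext x
      by_cases hx : x ∈ S
      · exact congrFun hUW ⟨x, hx⟩
      · have e1 := D.alpha_supp C2 hC2 S U (fun q hq => hT q (hU hq)) x hx 0
        have e2 := D.alpha_supp C2 hC2 S W (fun q hq => hT q (hW hq)) x hx 0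
        rw [zero_add] at e1 e2
        rw [e1, e2]
    have h2 := D.inj h1
    have key : ∀ (U : Finset (V d)) (x : V d), (∑ z ∈ U, δ z : Cf d) x = if x ∈ U then 1 else 0 := by
      intro U x
      rw [Finsupp.finsetSum_apply]
      simp only [Finsupp.single_apply]
      rw [Finset.sum_ite_eq' U x (fun _ => (1 : ZMod 2))]
    ext x
    have h3 := DFunLike.congr_fun h2 x
    rw [key U x, key W x] at h3
    by_cases h4 : x ∈ U <;> by_cases h5 : x ∈ W <;> simp [h4, h5] at h3 ⊢
  have h1 : T.powerset.card ≤ (Finset.univ : Finset (S → ZMod 2)).card := by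
    apply Finset.card_le_card_of_injOn Φ
    · intro U _; simp
    · exact hinj
  rw [Finset.card_powerset, Finset.card_univ, Fintype.card_fun, ZMod.card,
    Fintype.card_coe] at h1
  exact (Nat.pow_le_pow_iff_right (by norm_num)).1 h1

end Dat

end NB
end CQ
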